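import Mathlib
import Pool.Agent.N61.SG.Fin

/-!
# Infinitely many finite groups whose soluble graph has diameter at least four
-/

set_option autoImplicit false

namespace Pool.Agent.Results.MP_7523db_al.InfiniteFamily

open Pool.Agent.N61.SG

/-- There are infinitely many primes `p` such that the alternating group `A_p` is an insoluble finite
group with trivial soluble radical whose soluble graph has diameter at least `4`; these groups are
pairwise non-isomorphic. -/
theorem result : ∃ p : ℕ → ℕ, StrictMono p ∧ (∀ n, (p n).Prime) ∧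
    (∀ m n, Nonempty (alternatingGroup (Fin (p m)) ≃* alternatingGroup (Fin (p n))) → m = n) ∧
    ∀ n, Finite (alternatingGroup (Fin (p n))) ∧
      ¬ Group.IsSolvable (alternatingGroup (Fin (p n))) ∧
      solRad (alternatingGroup (Fin (p n))) = ⊥ ∧
      4 ≤ (solGraph (alternatingGroup (Fin (p n)))).ediam := by
  have hinf : {p : ℕ | p.Prime ∧ 2 ^ 14 ≤ p ∧ p % 4 = 3 ∧
      ∀ q : ℕ, q.Prime → q ∣ p - 1 → q = 2 ∨ 64 < q}.Infinite := by
    rw [Set.infinite_iff_exists_gt]
    intro N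
    obtain ⟨p, h1, h2⟩ := exists_prime N
    exact ⟨p, h2, h1⟩
  set P : ℕ → ℕ := Nat.nth (fun p => p.Prime ∧ 2 ^ 14 ≤ p ∧ p % 4 = 3 ∧
      ∀ q : ℕ, q.Prime → q ∣ p - 1 → q = 2 ∨ 64 < q) with hP
  have hmono : StrictMono P := Nat.nth_strictMono hinf
  have hmem : ∀ n, (P n).Prime ∧ 2 ^ 14 ≤ P n ∧ P n % 4 = 3 ∧
      ∀ q : ℕ, q.Prime → q ∣ P n - 1 → q = 2 ∨ 64 < q := fun n => Nat.nth_mem_of_infinite hinf n
  refine ⟨P, hmono, fun n => (hmem n).1, ?_, fun n => ⟨inferInstance, ?_⟩⟩
  · rintro m n ⟨e⟩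
    have hc := Nat.card_congr e.toEquiv
    rcases lt_trichotomy m n with h | h | h
    · exact absurd hc (card_alt_lt (hmem m).1.two_le (hmono h)).ne
    · exact h
    · exact absurd hc (card_alt_lt (hmem n).1.two_le (hmono h)).ne'
  · obtain ⟨h1, h2, h3, h4⟩ := hmem n
    exact main_fin h1 h2 h3 h4

end Pool.Agent.Results.MP_7523db_al.InfiniteFamily
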